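import Mathlib

namespace Pool.Agent.Results.MP_d4551b_al.Pieces

/-- words over `A ∪ A⁻¹`; `(a, true)` is `a` and `(a, false)` is `a⁻¹` -/
abbrev W (A : Type) := FreeMonoid (A × Bool)

variable {A : Type}

/-- formal inverse of a word -/
def inv (u : W A) : W A :=
  FreeMonoid.ofList ((FreeMonoid.toList u).reverse.map (fun l => (l.1, !l.2)))

/-- the generators of the Vagner congruence together with the relation `w = 1` -/
def Gen (w : W A) (s t : W A) : Prop :=
  (∃ u, s = u * inv u * u ∧ t = u) ∨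
  (∃ u v, s = u * inv u * (v * inv v) ∧ t = v * inv v * (u * inv u)) ∨ (s = w ∧ t = 1)

/-- the word `u` represents a unit of `Inv⟨A ∣ w = 1⟩` -/
def Unit (w u : W A) : Prop := IsUnit ((conGen (Gen w)).mk' u)

/-- initial segment of length `i` -/
def pre (w : W A) (i : ℕ) : W A := FreeMonoid.ofList ((FreeMonoid.toList w).take i)

/-- minimal invertible pieces of `w` in `Inv⟨A ∣ w = 1⟩`: factors between consecutive cuts -/
def pieces (w : W A) : Set (W A) :=
  {u | ∃ i j, i < j ∧ j ≤ (FreeMonoid.toList w).length ∧ Unit w (pre w i) ∧ Unit w (pre w j) ∧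
    (∀ l, i < l → l < j → ¬ Unit w (pre w l)) ∧ pre w j = pre w i * u}

/-- `y a b a⁻¹ b⁻¹ y⁻¹` with `a = 0`, `b = 1`, `y = 2` -/
def p : W (Fin 3) :=
  FreeMonoid.ofList [(2, true), (0, true), (1, true), (0, false), (1, false), (2, false)]

/-- the relator `p p⁻¹ a` -/
def r : W (Fin 3) := p * inv p * FreeMonoid.of (0, true)

lemma rel {w s t : W A} (h : Gen w s t) : (conGen (Gen w)).mk' s = (conGen (Gen w)).mk' t :=
  (Con.eq _).2 (ConGen.Rel.of _ _ h)

lemma unit_p : Unit r p := by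
  set m := (conGen (Gen r)).mk' with hm
  have h1 : m p * m (inv p) * m (FreeMonoid.of (0, true)) = 1 := by
    rw [← map_mul, ← map_mul, ← map_one m]
    exact rel (w := r) (Or.inr (Or.inr ⟨rfl, rfl⟩))
  have h2 : m p * m (inv p) * m p = m p := by
    rw [← map_mul, ← map_mul]
    exact rel (w := r) (Or.inl ⟨p, rfl, rfl⟩)
  have h3 : m p * m (inv p) = 1 := by
    calc m p * m (inv p) = m p * m (inv p) * (m p * m (inv p) * m (FreeMonoid.of (0, true))) := by
          rw [h1, mul_one]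
      _ = m p * m (inv p) * m p * m (inv p) * m (FreeMonoid.of (0, true)) := by
          simp only [mul_assoc]
      _ = 1 := by rw [h2, h1]
  have h4 : m (FreeMonoid.of (0, true)) = 1 := by rwa [h3, one_mul] at h1
  have h5 : m (FreeMonoid.of (0, false)) = 1 := by
    have := rel (w := r) (Or.inl ⟨FreeMonoid.of (0, true), rfl, rfl⟩)
    rw [map_mul, map_mul, ← hm, h4, one_mul, mul_one] at this
    exact this
  have e1 : p = .of (2, true) * .of (0, true) * .of (1, true) * .of (0, false) * .of (1, false) *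
    .of (2, false) := rfl
  have e2 : inv p = .of (2, true) * .of (1, true) * .of (0, true) * .of (1, false) * .of (0, false) *
    .of (2, false) := rfl
  have h6 : m (inv p) = m p := by
    rw [e2, e1]
    simp only [map_mul, h4, h5, mul_one]
  rw [h6] at h3
  exact ⟨⟨m p, m p, h3, h3⟩, rfl⟩

/-- letters as injections of the integers -/
def f (c : Fin 3) (x : ℤ) : ℤ := if c = 0 then -x else if c = 1 then x + 1 else if x ≤ 0 then x else 2 * x

lemma f_inj (c : Fin 3) (x y : ℤ) (h : f c x = f c y) : x = y := by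
  unfold f at h
  split_ifs at h <;> omega

/-- words as relations -/
def R : List (Fin 3 × Bool) → ℤ → ℤ → Prop
  | [], x, z => x = z
  | (c, true) :: u, x, z => R u (f c x) z
  | (c, false) :: u, x, z => ∃ t, x = f c t ∧ R u t z

lemma R_app (u v : List (Fin 3 × Bool)) (x z : ℤ) : R (u ++ v) x z ↔ ∃ t, R u x t ∧ R v t z := by
  induction u generalizing x with
  | nil => simp [R]
  | cons l u ih =>
    obtain ⟨c, _ | _⟩ := l
    · simp only [List.cons_append, R, ih]
      exact ⟨fun ⟨t, a, s, b, c⟩ => ⟨s, ⟨t, a, b⟩, c⟩, fun ⟨s, ⟨t, a, b⟩, c⟩ => ⟨t, a, s, b, c⟩⟩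
    · simp only [List.cons_append, R, ih]

/-- relation of an element of the free monoid -/
def S (u : W (Fin 3)) : ℤ → ℤ → Prop := R (FreeMonoid.toList u)

lemma S_mul (u v : W (Fin 3)) (x z : ℤ) : S (u * v) x z ↔ ∃ t, S u x t ∧ S v t z := R_app _ _ _ _

lemma S_inv (u : W (Fin 3)) (x z : ℤ) : S (inv u) x z ↔ S u z x := by
  change R (List.map _ (List.reverse _)) x z ↔ R _ z x
  generalize FreeMonoid.toList u = l
  induction l generalizing z with
  | nil => simp [R, eq_comm]
  | cons l u ih =>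
    obtain ⟨c, _ | _⟩ := l
    · simp only [List.reverse_cons, List.map_append, R_app, ih]
      simp [R, and_comm, eq_comm]
    · simp only [List.reverse_cons, List.map_append, R_app, ih]
      simp [R]

lemma S_fun (u : W (Fin 3)) (x y z : ℤ) (h : S u x y) (h' : S u x z) : y = z := by
  unfold S at h h'
  generalize FreeMonoid.toList u = l at h h'
  induction l generalizing x with
  | nil => exact h.symm.trans h'
  | cons l u ih =>
    obtain ⟨c, _ | _⟩ := l
    · obtain ⟨t, a, b⟩ := h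
      obtain ⟨s, a', b'⟩ := h'
      obtain rfl := f_inj c _ _ (a.symm.trans a')
      exact ih _ b b'
    · exact ih _ h h'

lemma S_idem (u : W (Fin 3)) (x z : ℤ) : S (u * inv u) x z ↔ x = z ∧ ∃ t, S u x t := by
  rw [S_mul]
  constructor
  · rintro ⟨t, a, b⟩
    exact ⟨S_fun (inv u) t _ _ ((S_inv _ _ _).2 a) b, t, a⟩
  · rintro ⟨rfl, t, a⟩
    exact ⟨t, a, (S_inv _ _ _).2 a⟩

/-- kernel of the representation -/
def K : Con (W (Fin 3)) where
  r u v := S u = S v
  iseqv := ⟨fun _ => rfl, Eq.symm, Eq.trans⟩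
  mul' := fun h1 h2 => by
    funext x z
    rw [S_mul, S_mul, h1, h2]

lemma p_tot (x : ℤ) : ∃ t, S p x t := by
  simp only [S, p, FreeMonoid.toList_ofList, R, f]
  simp only [Fin.isValue, Fin.reduceEq, if_true, if_false]
  by_cases h : x ≤ 0
  · refine ⟨x - 2, x - 1, ?_, x - 2, ?_, x - 2, ?_, rfl⟩ <;> (try split_ifs) <;> omega
  · by_cases h' : x = 1
    · refine ⟨0, 1, ?_, 0, ?_, 0, ?_, rfl⟩ <;> (try split_ifs) <;> omega
    · refine ⟨x - 1, 2 * x - 1, ?_, 2 * x - 2, ?_, x - 1, ?_, rfl⟩ <;> (try split_ifs) <;> omega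

lemma S_r (x z : ℤ) : S r x z ↔ -x = z := by
  rw [r, S_mul]
  simp only [S_idem, p_tot, and_true, exists_eq_left']
  simp [S, R, f]

lemma le_K : conGen (Gen (r ^ 2)) ≤ K := by
  refine Con.conGen_le.2 ?_
  rintro s t (⟨u, rfl, rfl⟩ | ⟨u, v, rfl, rfl⟩ | ⟨rfl, rfl⟩)
  · change S _ = S _
    funext x z
    rw [S_mul]
    simp only [S_idem, eq_iff_iff]
    exact ⟨fun ⟨_, ⟨e, _⟩, h⟩ => e ▸ h, fun h => ⟨x, ⟨rfl, z, h⟩, h⟩⟩
  · change S _ = S _
    funext x z
    rw [S_mul, S_mul (v * inv v)]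
    simp only [S_idem, eq_iff_iff]
    constructor <;> rintro ⟨_, ⟨rfl, a⟩, rfl, b⟩ <;> exact ⟨x, ⟨rfl, b⟩, rfl, a⟩
  · change S _ = S _
    funext x z
    rw [pow_two, S_mul]
    simp only [S_r, exists_eq_left', neg_neg]
    rfl

lemma surj (u : W (Fin 3)) (h : Unit (r ^ 2) u) (z : ℤ) : ∃ t, S u t z := by
  obtain ⟨v, hv⟩ := h.exists_left_inv
  obtain ⟨v, rfl⟩ := Con.mk'_surjective v
  rw [← map_mul, ← map_one (conGen (Gen (r ^ 2))).mk'] at hv
  have h1 : S (v * u) = S 1 := le_K ((Con.eq _).1 hv)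
  have h2 : S (v * u) z z := by rw [h1]; rfl
  obtain ⟨t, -, h⟩ := (S_mul _ _ _ _).1 h2
  exact ⟨t, h⟩

lemma not_unit (j : ℕ) (h0 : 0 < j) (h6 : j ≤ 6) : ¬ Unit (r ^ 2) (pre r j) := by
  intro h
  have e : FreeMonoid.toList r = [(2, true), (0, true), (1, true), (0, false), (1, false), (2, false),
    (2, true), (1, true), (0, true), (1, false), (0, false), (2, false), (0, true)] := rfl
  have h1 := surj _ h
  simp only [S, pre, e, FreeMonoid.toList_ofList] at h1
  interval_cases j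
  · obtain ⟨t, h⟩ := h1 1
    simp [R, f] at h
    split_ifs at h <;> omega
  · obtain ⟨t, h⟩ := h1 (-1)
    simp [R, f] at h
    split_ifs at h <;> omega
  · obtain ⟨t, h⟩ := h1 0
    simp [R, f] at h
    split_ifs at h <;> omega
  · obtain ⟨t, h⟩ := h1 0
    simp [R, f] at h
    split_ifs at h <;> omega
  · obtain ⟨t, h⟩ := h1 (-1)
    simp [R, f] at h
    split_ifs at h <;> omega
  · obtain ⟨t, h⟩ := h1 (-1)
    simp [R, f] at h
    split_ifs at h <;> omega

theorem result : ¬ ∀ (A : Type) (w : W A) (k : ℕ), w ≠ 1 → 2 ≤ k → pieces (w ^ k) = pieces w := by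
  intro H
  have H2 := H _ r 2 (fun h => absurd (congrArg (fun u => (FreeMonoid.toList u).length) h)
    (by decide)) le_rfl
  classical
  have hex : ∃ j, 0 < j ∧ Unit r (pre r j) := ⟨6, by norm_num, unit_p⟩
  have h6 : Nat.find hex ≤ 6 := Nat.find_min' hex ⟨by norm_num, unit_p⟩
  have hs := Nat.find_spec hex
  have hm : pre r (Nat.find hex) ∈ pieces r :=
    ⟨0, _, hs.1, h6.trans (by decide), (isUnit_one : IsUnit (1 : (conGen (Gen r)).Quotient)), hs.2,
      fun l h1 h2 h3 => Nat.find_min hex h2 ⟨h1, h3⟩, rfl⟩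
  rw [← H2] at hm
  obtain ⟨i, j, -, -, hi, hj, -, e⟩ := hm
  refine not_unit _ hs.1 h6 ?_
  unfold Unit at hi hj ⊢
  rw [e, map_mul] at hj
  exact (IsUnit.mul_left_iff hi).1 hj

end Pool.Agent.Results.MP_d4551b_al.Pieces
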